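import Mathlib

/-!
# Ramification indices and inertia groups of number fields
-/

set_option autoImplicit false
set_option linter.unusedSectionVars false

open NumberField

open scoped Pointwise

namespace Pool.Agent.Helper16.TR

section

variable (K F : Type) [Field K] [NumberField K] [Field F] [NumberField F] [Algebra K F]

lemma comap_ne_bot (P : Ideal (𝓞 F)) [hP : P.IsMaximal] :
    P.comap (algebraMap (𝓞 K) (𝓞 F)) ≠ ⊥ := by
  have h0 : P ≠ ⊥ := Ring.ne_bot_of_isMaximal_of_not_isField hP (RingOfIntegers.not_isField F)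
  exact Ideal.IsIntegral.comap_ne_bot (R := 𝓞 K) h0

lemma ramIdx_eq {P : Ideal (𝓞 F)} [hP : P.IsMaximal] {q : Ideal (𝓞 K)}
    (hq : q = P.comap (algebraMap (𝓞 K) (𝓞 F))) {e : ℕ}
    (h1 : q.map (algebraMap (𝓞 K) (𝓞 F)) ≤ P ^ e)
    (h2 : ¬ q.map (algebraMap (𝓞 K) (𝓞 F)) ≤ P ^ (e + 1)) : P.ramificationIdx (𝓞 K) = e := by
  have hl : P.LiesOver q := ⟨hq⟩
  have hq0 : q ≠ ⊥ := by rw [hq]; exact comap_ne_bot K F P
  rw [← Ideal.ramificationIdx'_eq_ramificationIdx q P hq0]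
  exact Ideal.ramificationIdx'_spec h1 h2

lemma exists_ramIdx (P : Ideal (𝓞 F)) [hP : P.IsMaximal] {q : Ideal (𝓞 K)}
    (hq : q = P.comap (algebraMap (𝓞 K) (𝓞 F))) :
    q.map (algebraMap (𝓞 K) (𝓞 F)) ≤ P ^ (P.ramificationIdx (𝓞 K)) ∧
    ¬ q.map (algebraMap (𝓞 K) (𝓞 F)) ≤ P ^ (P.ramificationIdx (𝓞 K) + 1) := by
  have hl : P.LiesOver q := ⟨hq⟩
  have hq0 : q ≠ ⊥ := by rw [hq]; exact comap_ne_bot K F P
  have h3 : q.map (algebraMap (𝓞 K) (𝓞 F)) ≠ ⊥ := Ideal.map_ne_bot_of_ne_bot hq0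
  have h0 : P ≠ ⊥ := Ring.ne_bot_of_isMaximal_of_not_isField hP (RingOfIntegers.not_isField F)
  rw [Ideal.IsDedekindDomain.ramificationIdx_eq_multiplicity q P h3]
  have hf : FiniteMultiplicity P (q.map (algebraMap (𝓞 K) (𝓞 F))) :=
    FiniteMultiplicity.of_prime_left (Ideal.prime_of_isPrime h0 hP.isPrime) h3
  constructor
  · exact Ideal.le_of_dvd (pow_multiplicity_dvd _ _)
  · intro h
    exact hf.not_pow_dvd_of_multiplicity_lt (Nat.lt_succ_self _) (Ideal.dvd_iff_le.2 h)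

lemma card_inertia [IsGalois K F] (P : Ideal (𝓞 F)) [hP : P.IsMaximal] :
    Nat.card (P.inertia (F ≃ₐ[K] F)) = P.ramificationIdx (𝓞 K) := by
  rw [Ideal.card_inertia_eq_ramificationIdxIn (P.under (𝓞 K)) P,
    Ideal.ramificationIdxIn_eq_ramificationIdx (P.under (𝓞 K)) P (F ≃ₐ[K] F)]

end

section

variable (M F E : Type) [Field M] [NumberField M] [Field F] [NumberField F] [Field E]
  [NumberField E] [Algebra M F] [Algebra F E] [Algebra M E] [IsScalarTower M F E]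

lemma smul_coe (σ : E ≃ₐ[M] E) (x : 𝓞 E) : ((σ • x : 𝓞 E) : E) = σ (x : E) := rfl

lemma ramIdx_mul [IsGalois M E] (P : Ideal (𝓞 E)) [hP : P.IsMaximal] :
    Nat.card (P.inertia (E ≃ₐ[M] E)) =
      (P.comap (algebraMap (𝓞 F) (𝓞 E))).ramificationIdx (𝓞 M) *
        Nat.card (P.inertia (E ≃ₐ[F] E)) := by
  have : IsGalois F E := IsGalois.tower_top_of_isGalois M F E
  rw [card_inertia, card_inertia]
  have : P.LiesOver (P.comap (algebraMap (𝓞 F) (𝓞 E))) := ⟨rfl⟩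
  exact Ideal.ramificationIdx_tower (P.comap (algebraMap (𝓞 F) (𝓞 E))) P

/-- the inertia group over `F` as a subgroup of the Galois group over `M` -/
noncomputable def inF (P : Ideal (𝓞 E)) : Subgroup (E ≃ₐ[M] E) :=
  (P.inertia (E ≃ₐ[F] E)).map (AlgEquiv.restrictScalarsHom M)

lemma inF_le (P : Ideal (𝓞 E)) : inF M F E P ≤ P.inertia (E ≃ₐ[M] E) := by
  rintro _ ⟨σ, hσ, rfl⟩
  intro x
  exact hσ x

lemma mem_inF {P : Ideal (𝓞 E)} {σ : E ≃ₐ[M] E} (hσ : σ ∈ P.inertia (E ≃ₐ[M] E))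
    (h : ∀ x : F, σ (algebraMap F E x) = algebraMap F E x) : σ ∈ inF M F E P := by
  let τ : E ≃ₐ[F] E := AlgEquiv.ofRingEquiv (f := σ.toRingEquiv) h
  refine ⟨τ, ?_, ?_⟩
  · intro x
    exact hσ x
  · ext x
    rfl

lemma card_inF (P : Ideal (𝓞 E)) :
    Nat.card (inF M F E P) = Nat.card (P.inertia (E ≃ₐ[F] E)) := by
  refine Subgroup.card_map_of_injective ?_
  intro σ τ h
  ext x
  exact congrArg (fun f : E ≃ₐ[M] E => f x) h

lemma ramIdx_eq_one [IsGalois M E] (P : Ideal (𝓞 E)) [hP : P.IsMaximal]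
    (h : ∀ σ : E ≃ₐ[M] E, σ ∈ P.inertia (E ≃ₐ[M] E) → ∀ x : F, σ (algebraMap F E x) =
      algebraMap F E x) :
    (P.comap (algebraMap (𝓞 F) (𝓞 E))).ramificationIdx (𝓞 M) = 1 := by
  have h1 := ramIdx_mul M F E P
  have h2 : inF M F E P = P.inertia (E ≃ₐ[M] E) :=
    le_antisymm (inF_le M F E P) fun σ hσ => mem_inF M F E hσ (h σ hσ)
  rw [← card_inF M F E P, h2] at h1
  have h3 : 0 < Nat.card (P.inertia (E ≃ₐ[M] E)) := Nat.card_pos
  have h4 : (P.comap (algebraMap (𝓞 F) (𝓞 E))).ramificationIdx (𝓞 M) *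
    Nat.card (P.inertia (E ≃ₐ[M] E)) = 1 * Nat.card (P.inertia (E ≃ₐ[M] E)) := by
    rw [one_mul]; exact h1.symm
  exact Nat.eq_of_mul_eq_mul_right h3 h4

lemma not_dvd_ramIdx [IsGalois M E] (P : Ideal (𝓞 E)) [hP : P.IsMaximal] (p : ℕ)
    [hp : Fact p.Prime]
    (h : ∀ σ : E ≃ₐ[M] E, σ ∈ P.inertia (E ≃ₐ[M] E) → (∃ k : ℕ, σ ^ p ^ k = 1) →
      ∀ x : F, σ (algebraMap F E x) = algebraMap F E x) :
    ¬ p ∣ (P.comap (algebraMap (𝓞 F) (𝓞 E))).ramificationIdx (𝓞 M) := by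
  intro hdvd
  have h1 := ramIdx_mul M F E P
  rw [← card_inF M F E P] at h1
  obtain ⟨Q⟩ : Nonempty (Sylow p (P.inertia (E ≃ₐ[M] E))) := inferInstance
  have h2 : (Q : Subgroup (P.inertia (E ≃ₐ[M] E))).map (P.inertia (E ≃ₐ[M] E)).subtype ≤
      inF M F E P := by
    rintro _ ⟨σ, hσ, rfl⟩
    refine mem_inF M F E σ.2 (h _ σ.2 ?_)
    obtain ⟨k, hk⟩ := Q.isPGroup' ⟨σ, hσ⟩
    refine ⟨k, ?_⟩
    have := congrArg (fun τ : Q => (((τ : P.inertia (E ≃ₐ[M] E)) : E ≃ₐ[M] E))) hk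
    simpa using this
  have h3 : Nat.card Q ∣ Nat.card (inF M F E P) := by
    have h4 := Subgroup.card_dvd_of_le h2
    rwa [Subgroup.card_map_of_injective (Subgroup.subtype_injective _)] at h4
  have h5 : p * Nat.card Q ∣ Nat.card (P.inertia (E ≃ₐ[M] E)) := by
    rw [h1]; exact mul_dvd_mul hdvd h3
  rw [← (Q : Subgroup (P.inertia (E ≃ₐ[M] E))).card_mul_index, mul_comm p] at h5
  have h6 : p ∣ (Q : Subgroup (P.inertia (E ≃ₐ[M] E))).index :=
    Nat.dvd_of_mul_dvd_mul_left (Nat.card_pos (α := Q)) h5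
  exact Q.not_dvd_index' (by
    have : Finite (P.inertia (E ≃ₐ[M] E)) := inferInstance
    exact Subgroup.index_ne_zero_of_finite) h6

/-- restriction of elements of the inertia group -/
lemma restrict_inertia [IsGalois M F] (P : Ideal (𝓞 E)) {σ : E ≃ₐ[M] E}
    (hσ : σ ∈ P.inertia (E ≃ₐ[M] E)) :
    σ.restrictNormal F ∈ (P.comap (algebraMap (𝓞 F) (𝓞 E))).inertia (F ≃ₐ[M] F) := by
  intro x
  change algebraMap (𝓞 F) (𝓞 E) (σ.restrictNormal F • x - x) ∈ P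
  have h1 := hσ (algebraMap (𝓞 F) (𝓞 E) x)
  have h2 : σ • (algebraMap (𝓞 F) (𝓞 E) x) = algebraMap (𝓞 F) (𝓞 E) (σ.restrictNormal F • x) := by
    apply RingOfIntegers.ext
    exact (AlgEquiv.restrictNormal_commutes σ F (x : F)).symm
  rw [map_sub, ← h2]
  exact h1

lemma trivial_of_inertia [IsGalois M F] (P : Ideal (𝓞 E)) [hP : P.IsMaximal] {σ : E ≃ₐ[M] E}
    (hσ : σ ∈ P.inertia (E ≃ₐ[M] E)) (n : ℕ) (hn : σ ^ n = 1)
    (hc : n.Coprime ((P.comap (algebraMap (𝓞 F) (𝓞 E))).ramificationIdx (𝓞 M))) :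
    ∀ x : F, σ (algebraMap F E x) = algebraMap F E x := by
  have : (P.comap (algebraMap (𝓞 F) (𝓞 E))).IsMaximal := inferInstance
  rw [← card_inertia M F] at hc
  have h1 : σ.restrictNormal F ^ n = 1 := by
    have := congrArg (AlgEquiv.restrictNormalHom F) hn
    rwa [map_pow, map_one] at this
  have h2 : σ.restrictNormal F ^
      (Nat.card ((P.comap (algebraMap (𝓞 F) (𝓞 E))).inertia (F ≃ₐ[M] F))) = 1 := by
    have := pow_card_eq_one' (x := (⟨σ.restrictNormal F, restrict_inertia M F E P hσ⟩ :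
      (P.comap (algebraMap (𝓞 F) (𝓞 E))).inertia (F ≃ₐ[M] F)))
    exact congrArg Subtype.val this
  have h3 : σ.restrictNormal F = 1 := by
    rw [← orderOf_eq_one_iff]
    exact Nat.eq_one_of_dvd_coprimes hc (orderOf_dvd_of_pow_eq_one h1)
      (orderOf_dvd_of_pow_eq_one h2)
  intro x
  have h4 := AlgEquiv.restrictNormal_commutes σ F x
  rw [h3] at h4
  exact h4.symm

end

end Pool.Agent.Helper16.TR
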