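import Mathlib

/-!
# Tame representations of Galois groups of number fields
-/

set_option autoImplicit false

open NumberField

namespace Pool.Agent.Helper16.TR

/-- The homomorphism `ρ` from the Galois group of `Ω` over `K` is unramified outside `S` and at most
tamely ramified in `S`: for every number field `F` over `K`, embedded into the fixed field of the
kernel of `ρ`, and every maximal ideal `P` of the ring of integers of `F` above a prime `q` of `K`,
the ramification index `e` of `P` over `q` is `1` if `q ∉ S` and is prime to the residue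
characteristic if `q ∈ S`. -/
def TameIn (K Ω : Type) [Field K] [NumberField K] [Field Ω] [Algebra K Ω] (S : Set (Ideal (𝓞 K)))
    {H : Type} [Group H] (ρ : (Ω ≃ₐ[K] Ω) →* H) : Prop :=
  ∀ (F : Type) [Field F] [NumberField F] [Algebra K F] (ι : F →ₐ[K] Ω),
    ι.fieldRange ≤ IntermediateField.fixedField ρ.ker →
    ∀ (P : Ideal (𝓞 F)), P.IsMaximal →
    ∀ (q : Ideal (𝓞 K)), q = P.comap (algebraMap (𝓞 K) (𝓞 F)) →
    ∀ e : ℕ, q.map (algebraMap (𝓞 K) (𝓞 F)) ≤ P ^ e →
      ¬ (q.map (algebraMap (𝓞 K) (𝓞 F)) ≤ P ^ (e + 1)) →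
      (q ∉ S → e = 1) ∧ (q ∈ S → ¬ (ringChar (𝓞 K ⧸ q) ∣ e))

/-- The automorphism `c` of `Ω` is a complex conjugation: it is induced by the conjugation of the
complex numbers, for some embedding of `Ω` into the complex numbers. -/
def IsComplexConj {K Ω : Type} [Field K] [Field Ω] [Algebra K Ω] (c : Ω ≃ₐ[K] Ω) : Prop :=
  ∃ φ : Ω →+* ℂ, ∀ x, φ (c x) = starRingEnd ℂ (φ x)

/-- The representation `ρ` has trace `0` at all complex conjugations. -/
def IsOdd {K Ω A : Type} [Field K] [Field Ω] [Algebra K Ω] [CommRing A] {n : ℕ}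
    (ρ : (Ω ≃ₐ[K] Ω) →* Matrix.GeneralLinearGroup (Fin n) A) : Prop :=
  ∀ c : Ω ≃ₐ[K] Ω, IsComplexConj c →
    Matrix.trace ((ρ c : Matrix.GeneralLinearGroup (Fin n) A) : Matrix (Fin n) (Fin n) A) = 0

/-- The homomorphism `ρ` preserves a non-degenerate symmetric bilinear form, given by an invertible
symmetric matrix `J`. -/
def IsOrthogonal {G A : Type} [Group G] [CommRing A] {n : ℕ}
    (ρ : G →* Matrix.GeneralLinearGroup (Fin n) A) : Prop :=
  ∃ J : Matrix.GeneralLinearGroup (Fin n) A,
    ((J : Matrix.GeneralLinearGroup (Fin n) A) : Matrix (Fin n) (Fin n) A).transpose = J ∧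
    ∀ g, ((ρ g : Matrix.GeneralLinearGroup (Fin n) A) : Matrix (Fin n) (Fin n) A).transpose * J *
      (ρ g : Matrix.GeneralLinearGroup (Fin n) A) = J

/-- The maximal ideals of the ring of integers of `M` with the residue characteristic of a maximal
ideal of the ring of integers of `K` in the set `S`. -/
def sameChar (K : Type) [Field K] [NumberField K] (S : Set (Ideal (𝓞 K))) (M : Type) [Field M]
    [NumberField M] : Set (Ideal (𝓞 M)) :=
  {q | q.IsMaximal ∧ ∃ s ∈ S, s.IsMaximal ∧ ringChar (𝓞 K ⧸ s) = ringChar (𝓞 M ⧸ q)}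

end Pool.Agent.Helper16.TR
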